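import Mathlib

/-! Definitions: hyperelliptic curves over `ℚ` with rational Weierstrass points, and good reduction. -/

set_option autoImplicit false

namespace Pool.Agent.L0h51.HC

/-- the determinant of two vectors -/
def det2 (v w : ℚ × ℚ) : ℚ := v.1 * w.2 - v.2 * w.1

/-- A set `S` of points `(x : y)` of the projective line over `ℚ` is good at `p` if the points stay
different modulo `p` for some coordinate of the line: there are a matrix `(a, b; c, d)` with nonzero
determinant and `l v ≠ 0` such that the vectors `l v (a x + b y, c x + d y)`, `v = (x, y) ∈ S`, have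
coordinates in the local ring at `p`, and the determinant of any two of them is a unit of this
ring. -/
def GoodAt (p : ℕ) (S : Set (ℚ × ℚ)) : Prop :=
  ∃ (a b c d : ℚ) (l : ℚ × ℚ → ℚ), a * d - b * c ≠ 0 ∧
    (∀ v ∈ S, l v ≠ 0 ∧ padicNorm p (l v * (a * v.1 + b * v.2)) ≤ 1 ∧
      padicNorm p (l v * (c * v.1 + d * v.2)) ≤ 1) ∧
    ∀ v ∈ S, ∀ w ∈ S, v ≠ w →
      padicNorm p (det2 (l v * (a * v.1 + b * v.2), l v * (c * v.1 + d * v.2))
        (l w * (a * w.1 + b * w.2), l w * (c * w.1 + d * w.2))) = 1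

/-- the points `∞`, `0`, `1` and the elements of `Φ` -/
def pts (Φ : Finset ℚ) : Set (ℚ × ℚ) :=
  {v | v = (1, 0) ∨ v = (0, 1) ∨ v = (1, 1) ∨ ∃ t ∈ Φ, v = (t, 1)}

/-- The finite sets `Φ` of rational numbers different from `0` and `1` such that the set
`{0, 1, ∞} ∪ Φ` of points of the line is good at all primes which do not divide `2N`. If `Φ` has
`2g - 1` elements, then these are the Weierstrass points of the hyperelliptic curve
`y² = x (x - 1) ∏_{t ∈ Φ} (x - t)` of genus `g`. -/
def H (N : ℕ) : Set (Finset ℚ) :=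
  {Φ | 0 ∉ Φ ∧ 1 ∉ Φ ∧ ∀ p : ℕ, p.Prime → ¬ p ∣ 2 * N → GoodAt p (pts Φ)}

/-- the logarithmic height of `t = a / b`, which is `log max(|a|, b)` -/
noncomputable def height (t : ℚ) : ℝ := Real.log (max t.num.natAbs t.den : ℕ)

end Pool.Agent.L0h51.HC
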