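import Pool.Agent.L0h51.AB.Lam
import Pool.Agent.L0h51.HC.Defs

/-! The criterion: all the ratios are parameters of Legendre curves. -/

set_option autoImplicit false

namespace Pool.Agent.L0h51.HC

open Pool.Agent.L0h51.AB (T legA legB mem_T leg_ne leg_J mj_dvd)

section
variable {p : ℕ} [hp : Fact p.Prime]

theorem norm_le_iff (j : ℚ) : padicNorm p j ≤ 1 ↔ ¬ p ∣ j.den := by
  have e : padicNorm p j * padicNorm p (j.den : ℚ) = padicNorm p (j.num : ℚ) := by
    rw [← padicNorm.mul, Rat.mul_den_eq_num]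
  have hn := padicNorm.of_int (p := p) j.num
  constructor
  · intro h h1
    have h2 : padicNorm p (j.den : ℚ) < 1 := (padicNorm.nat_lt_one_iff _).2 h1
    have h3 : ¬ (p : ℤ) ∣ j.num := by
      intro h4
      have h5 : p ∣ j.num.natAbs := Int.natCast_dvd.1 h4
      exact hp.out.one_lt.ne' (Nat.dvd_one.1 (j.reduced ▸ Nat.dvd_gcd h5 h1))
    have h4 : padicNorm p (j.num : ℚ) = 1 := (padicNorm.int_eq_one_iff _).2 h3
    rw [h4] at e
    have h5 : 0 ≤ padicNorm p (j.den : ℚ) := padicNorm.nonneg _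
    nlinarith [padicNorm.nonneg (p := p) j]
  · intro h
    have h2 : padicNorm p (j.den : ℚ) = 1 := (padicNorm.nat_eq_one_iff _).2 h
    rw [h2, mul_one] at e
    rw [e]
    exact hn

/-- units -/
theorem unit_p (h2 : p ≠ 2) {t j : ℚ} (hj : padicNorm p j ≤ 1)
    (h : 256 * (t ^ 2 - t + 1) ^ 3 = j * (t ^ 2 * (t - 1) ^ 2)) :
    padicNorm p t = 1 ∧ padicNorm p (t - 1) = 1 := by
  have hn1 : padicNorm p (1 : ℚ) = 1 := padicNorm.one
  have hneg1 : padicNorm p (-1 : ℚ) = 1 := by rw [padicNorm.neg, hn1]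
  have h256 : padicNorm p (256 : ℚ) = 1 := by
    have h3 : ¬ p ∣ 2 := fun h4 => h2 ((Nat.prime_dvd_prime_iff_eq hp.out Nat.prime_two).1 h4)
    have h4 := (padicNorm.nat_eq_one_iff (p := p) 256).2 (fun h5 => by
      have h6 : (256 : ℕ) = 2 ^ 8 := by norm_num
      rw [h6] at h5
      exact h3 (hp.out.dvd_of_dvd_pow h5))
    exact_mod_cast h4
  set x := padicNorm p t with hx
  set y := padicNorm p (t - 1) with hy
  have hj0 : 0 ≤ padicNorm p j := padicNorm.nonneg _
  have hx0 : 0 ≤ x := padicNorm.nonneg _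
  have hy0 : 0 ≤ y := padicNorm.nonneg _
  have pm : ∀ a b : ℚ, padicNorm p (a * b) = padicNorm p a * padicNorm p b := fun a b =>
    padicNorm.mul a b
  have E : padicNorm p (t ^ 2 - t + 1) ^ 3 = padicNorm p j * (x ^ 2 * y ^ 2) := by
    have h3 := congrArg (padicNorm p) h
    rw [pm, h256, one_mul, pm, pm, pow_succ, pow_two, pm, pm, pow_two, pow_two, pm, pm,
      ← hx, ← hy] at h3
    rw [show t * t = t ^ 2 from (pow_two t).symm] at h3
    linear_combination h3
  have hz : padicNorm p (t ^ 2 - t) = x * y := by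
    have e : t ^ 2 - t = t * (t - 1) := by ring
    rw [e, pm]
  have hzl : x * y < 1 → padicNorm p (t ^ 2 - t + 1) = 1 := by
    intro h3
    rw [padicNorm.add_eq_max_of_ne (by rw [hz, hn1]; exact h3.ne), hz, hn1]
    exact max_eq_right h3.le
  have hx1 : x = 1 := by
    rcases lt_trichotomy x 1 with h3 | h3 | h3
    · exfalso
      have h4 : y = 1 := by
        rw [hy, sub_eq_add_neg, padicNorm.add_eq_max_of_ne (by rw [hneg1]; exact h3.ne), hneg1]
        exact max_eq_right h3.le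
      rw [hzl (by rw [h4, mul_one]; exact h3), h4] at E
      nlinarith
    · exact h3
    · exfalso
      have h4 : y = x := by
        rw [hy, sub_eq_add_neg, padicNorm.add_eq_max_of_ne (by rw [hneg1]; exact h3.ne'), hneg1]
        exact max_eq_left h3.le
      have h5 : 1 < x * y := by rw [h4]; nlinarith
      have h6 : padicNorm p (t ^ 2 - t + 1) = x * x := by
        rw [padicNorm.add_eq_max_of_ne (by rw [hz, hn1]; exact h5.ne'), hz, hn1,
          max_eq_left h5.le, h4]
      rw [h6, h4] at E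
      have h7 : 0 < x ^ 4 := by positivity
      have h8 : x ^ 4 * x ^ 2 = padicNorm p j * x ^ 4 := by linear_combination E
      have h9 : 1 < x ^ 2 := by nlinarith
      nlinarith
  refine ⟨hx1, ?_⟩
  have h3 : y ≤ 1 := by
    rw [hy, sub_eq_add_neg]
    refine padicNorm.nonarchimedean.trans ?_
    rw [hneg1, ← hx, hx1, max_self]
  rcases lt_or_eq_of_le h3 with h4 | h4
  · exfalso
    rw [hzl (by rw [hx1, one_mul]; exact h4), hx1] at E
    nlinarith
  · exact h4

/-- the invariant is integral -/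
theorem inv_p {t j : ℚ} (h : 256 * (t ^ 2 - t + 1) ^ 3 = j * (t ^ 2 * (t - 1) ^ 2))
    (h1 : padicNorm p t = 1) (h2 : padicNorm p (t - 1) = 1) : padicNorm p j ≤ 1 := by
  have pm : ∀ a b : ℚ, padicNorm p (a * b) = padicNorm p a * padicNorm p b := fun a b =>
    padicNorm.mul a b
  have h3 := congrArg (padicNorm p) h
  have h256 : padicNorm p (256 : ℚ) ≤ 1 := by
    have := padicNorm.of_nat (p := p) 256
    exact_mod_cast this
  have h4 : padicNorm p (t ^ 2 - t + 1) ≤ 1 := by
    refine padicNorm.nonarchimedean.trans (max_le ?_ ?_)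
    · have e : t ^ 2 - t = t * (t - 1) := by ring
      rw [e, pm, h1, h2, one_mul]
    · exact padicNorm.one.le
  have h5 : 0 ≤ padicNorm p (t ^ 2 - t + 1) := padicNorm.nonneg _
  rw [pm, pm, pm, pow_succ, pow_two, pm, pm, pow_two, pow_two, pm, pm, h1, h2, one_mul, one_mul,
    mul_one, show t * t = t ^ 2 from (pow_two t).symm] at h3
  rw [← h3]
  have h6 : padicNorm p (t ^ 2 - t + 1) * padicNorm p (t ^ 2 - t + 1) *
      padicNorm p (t ^ 2 - t + 1) ≤ 1 := by
    have h7 : padicNorm p (t ^ 2 - t + 1) * padicNorm p (t ^ 2 - t + 1) ≤ 1 := by nlinarith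
    nlinarith
  calc _ ≤ (1 : ℚ) * 1 := mul_le_mul h256 h6 (by positivity) zero_le_one
    _ = 1 := one_mul _

/-- good reduction at `p` in terms of differences -/
theorem good_iff {Φ : Finset ℚ} (h0 : (0 : ℚ) ∉ Φ) (h1 : (1 : ℚ) ∉ Φ) :
    GoodAt p (pts Φ) ↔ (∀ t ∈ Φ, padicNorm p t = 1 ∧ padicNorm p (t - 1) = 1) ∧
      ∀ s ∈ Φ, ∀ t ∈ Φ, s ≠ t → padicNorm p (s - t) = 1 := by
  have pm : ∀ a b : ℚ, padicNorm p (a * b) = padicNorm p a * padicNorm p b := fun a b =>
    padicNorm.mul a b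
  have hn1 : padicNorm p (1 : ℚ) = 1 := padicNorm.one
  have i1 : ((1, 0) : ℚ × ℚ) ∈ pts Φ := Or.inl rfl
  have i2 : ((0, 1) : ℚ × ℚ) ∈ pts Φ := Or.inr (Or.inl rfl)
  have i3 : ((1, 1) : ℚ × ℚ) ∈ pts Φ := Or.inr (Or.inr (Or.inl rfl))
  have i4 : ∀ t ∈ Φ, ((t, 1) : ℚ × ℚ) ∈ pts Φ := fun t ht => Or.inr (Or.inr (Or.inr ⟨t, ht, rfl⟩))
  constructor
  · rintro ⟨a, b, c, d, l, -, -, hD⟩
    set δ := padicNorm p (a * d - b * c) with hδ
    have key : ∀ v ∈ pts Φ, ∀ w ∈ pts Φ, v ≠ w →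
        padicNorm p (l v) * padicNorm p (l w) * δ * padicNorm p (det2 v w) = 1 := by
      intro v hv w hw hne
      rw [← hD v hv w hw hne, hδ, ← pm, ← pm, ← pm]
      congr 1
      simp only [det2]
      ring
    have k1 := key _ i1 _ i2 (by simp)
    have k2 := key _ i1 _ i3 (by simp)
    have k3 := key _ i2 _ i3 (by simp)
    have e1 : det2 (1, 0) (0, 1) = 1 := by simp [det2]
    have e2 : det2 (1, 0) (1, 1) = 1 := by simp [det2]
    have e3 : det2 (0, 1) (1, 1) = -1 := by simp [det2]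
    rw [e1, hn1, mul_one] at k1
    rw [e2, hn1, mul_one] at k2
    rw [e3, padicNorm.neg, hn1, mul_one] at k3
    set A := padicNorm p (l (1, 0)) with hA
    set B := padicNorm p (l (0, 1)) with hB
    set C := padicNorm p (l (1, 1)) with hC
    have hAδ : A * δ ≠ 0 := fun h => by
      have : A * B * δ = 0 := by linear_combination B * h
      rw [this] at k1
      norm_num at k1
    have hBC : B = C := by
      have : A * δ * B = A * δ * C := by linear_combination k1 - k2
      exact mul_left_cancel₀ hAδ this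
    have hlt : ∀ t ∈ Φ, padicNorm p (l (t, 1)) = B := by
      intro t ht
      have k4 := key _ i1 _ (i4 t ht) (by simp)
      have e4 : det2 (1, 0) (t, 1) = 1 := by simp [det2]
      rw [e4, hn1, mul_one, ← hA] at k4
      have : A * δ * padicNorm p (l (t, 1)) = A * δ * B := by linear_combination k4 - k1
      exact mul_left_cancel₀ hAδ this
    rw [← hBC] at k3
    constructor
    · intro t ht
      have t0 : t ≠ 0 := fun h => h0 (h ▸ ht)
      have t1 : t ≠ 1 := fun h => h1 (h ▸ ht)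
      have k4 := key _ i2 _ (i4 t ht) (by simpa using t0.symm)
      have k5 := key _ (i4 t ht) _ i3 (by simpa using t1)
      have e4 : det2 (0, 1) (t, 1) = -t := by simp [det2]
      have e5 : det2 (t, 1) (1, 1) = t - 1 := by simp [det2]
      rw [e4, padicNorm.neg, hlt t ht, ← hB] at k4
      rw [e5, hlt t ht, ← hC, ← hBC] at k5
      constructor
      · linear_combination k4 - padicNorm p t * k3 + (0 : ℚ) * k5
      · linear_combination k5 - padicNorm p (t - 1) * k3
    · intro s hs t ht hst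
      have k4 := key _ (i4 s hs) _ (i4 t ht) (by simpa using hst)
      have e4 : det2 (s, 1) (t, 1) = s - t := by simp [det2]
      rw [e4, hlt s hs, hlt t ht] at k4
      linear_combination k4 - padicNorm p (s - t) * k3
  · rintro ⟨hu, hd⟩
    refine ⟨1, 0, 0, 1, fun _ => 1, by norm_num, ?_, ?_⟩
    · rintro v (rfl | rfl | rfl | ⟨t, ht, rfl⟩)
      · exact ⟨one_ne_zero, by simp, by simp⟩
      · exact ⟨one_ne_zero, by simp, by simp⟩
      · exact ⟨one_ne_zero, by simp, by simp⟩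
      · refine ⟨one_ne_zero, ?_, by simp⟩
        have := (hu t ht).1
        simp [this]
    · have hswap : ∀ a b : ℚ, padicNorm p (a - b) = padicNorm p (b - a) := by
        intro a b
        rw [← padicNorm.neg, neg_sub]
      rintro v (rfl | rfl | rfl | ⟨t, ht, rfl⟩) w (rfl | rfl | rfl | ⟨s, hs, rfl⟩) hne
      · exact absurd rfl hne
      · simp [det2]
      · simp [det2]
      · simp [det2]
      · simp [det2]
      · exact absurd rfl hne
      · simp [det2]
      · have := (hu s hs).1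
        simp [det2, this]
      · simp [det2]
      · simp [det2]
      · exact absurd rfl hne
      · have := (hu s hs).2
        have e : det2 (1 * (1 * ((1 : ℚ), (1 : ℚ)).1 + 0 * ((1 : ℚ), (1 : ℚ)).2), 1 * (0 * ((1 : ℚ), (1 : ℚ)).1 + 1 * ((1 : ℚ), (1 : ℚ)).2)) (1 * (1 * (s, (1 : ℚ)).1 + 0 * (s, (1 : ℚ)).2), 1 * (0 * (s, (1 : ℚ)).1 + 1 * (s, (1 : ℚ)).2)) = 1 - s := by
          simp [det2]
        rw [e, hswap]
        exact this
      · simp [det2]
      · have := (hu t ht).1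
        simp [det2, this]
      · have := (hu t ht).2
        simp [det2, this]
      · have hst : t ≠ s := fun h => hne (by rw [h])
        have := hd t ht s hs hst
        simp [det2, this]

end

/-- the parameters of the curves of Legendre with good reduction outside of `2N` -/
theorem mem_leg (N : ℕ) (t : ℚ) : t ∈ T legA legB N ↔ t ≠ 0 ∧ t ≠ 1 ∧
    ∀ p : ℕ, p.Prime → ¬ p ∣ 2 * N → padicNorm p t = 1 ∧ padicNorm p (t - 1) = 1 := by
  rw [mem_T, leg_ne]
  constructor
  · rintro ⟨⟨h0, h1⟩, h2⟩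
    refine ⟨h0, h1, fun p hp hpN => ?_⟩
    have : Fact p.Prime := ⟨hp⟩
    have hp2 : p ≠ 2 := fun h => hpN (h ▸ Dvd.intro _ rfl)
    refine unit_p hp2 ((norm_le_iff _).2 fun h3 => ?_) (leg_J h0 h1)
    exact hpN (Dvd.dvd.mul_left (mj_dvd.1 h2 p hp hp2 h3) _)
  · rintro ⟨h0, h1, h2⟩
    refine ⟨⟨h0, h1⟩, mj_dvd.2 fun p hp hp2 h3 => ?_⟩
    have : Fact p.Prime := ⟨hp⟩
    by_contra hpN
    have h4 : ¬ p ∣ 2 * N := by
      intro h5
      rcases (hp.dvd_mul).1 h5 with h6 | h6
      · exact hp2 ((Nat.prime_dvd_prime_iff_eq hp Nat.prime_two).1 h6)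
      · exact hpN h6
    obtain ⟨h5, h6⟩ := h2 p hp h4
    exact (norm_le_iff _).1 (inv_p (leg_J h0 h1) h5 h6) h3

/-- the set `H N` is a function of the set of the parameters -/
theorem mem_H {N : ℕ} {Φ : Finset ℚ} : Φ ∈ H N ↔ (∀ t ∈ Φ, t ∈ T legA legB N) ∧
    ∀ s ∈ Φ, ∀ t ∈ Φ, s ≠ t → s / t ∈ T legA legB N := by
  constructor
  · rintro ⟨h0, h1, h2⟩
    have t0 : ∀ t ∈ Φ, t ≠ 0 := fun t ht h => h0 (h ▸ ht)
    have t1 : ∀ t ∈ Φ, t ≠ 1 := fun t ht h => h1 (h ▸ ht)
    refine ⟨fun t ht => (mem_leg N t).2 ⟨t0 t ht, t1 t ht, fun p hp hpN => ?_⟩,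
      fun s hs t ht hst => (mem_leg N _).2 ⟨div_ne_zero (t0 s hs) (t0 t ht), ?_,
        fun p hp hpN => ?_⟩⟩
    · have : Fact p.Prime := ⟨hp⟩
      exact ((good_iff h0 h1).1 (h2 p hp hpN)).1 t ht
    · intro h
      exact hst ((div_eq_one_iff_eq (t0 t ht)).1 h)
    · have : Fact p.Prime := ⟨hp⟩
      obtain ⟨k1, k2⟩ := (good_iff h0 h1).1 (h2 p hp hpN)
      have e : s / t - 1 = (s - t) / t := by
        have := t0 t ht
        field_simp
      rw [e, padicNorm.div, padicNorm.div, (k1 s hs).1, (k1 t ht).1, k2 s hs t ht hst]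
      simp
  · rintro ⟨h1, h2⟩
    have t0 : ∀ t ∈ Φ, t ≠ 0 := fun t ht => ((mem_leg N t).1 (h1 t ht)).1
    have i0 : (0 : ℚ) ∉ Φ := fun h => t0 0 h rfl
    have i1 : (1 : ℚ) ∉ Φ := fun h => ((mem_leg N 1).1 (h1 1 h)).2.1 rfl
    refine ⟨i0, i1, fun p hp hpN => ?_⟩
    have : Fact p.Prime := ⟨hp⟩
    refine (good_iff i0 i1).2 ⟨fun t ht => ((mem_leg N t).1 (h1 t ht)).2.2 p hp hpN,
      fun s hs t ht hst => ?_⟩
    have h3 := (((mem_leg N _).1 (h2 s hs t ht hst)).2.2 p hp hpN).2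
    have h4 := (((mem_leg N t).1 (h1 t ht)).2.2 p hp hpN).1
    have e : s - t = (s / t - 1) * t := by
      have := t0 t ht
      field_simp
    rw [e, padicNorm.mul, h3, h4, one_mul]

end Pool.Agent.L0h51.HC
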