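import Pool.Agent.L0h51.HC.Crit

/-! The largest genus. -/

set_option autoImplicit false

namespace Pool.Agent.L0h51.HC

open Filter Topology Finset

section
variable {p : ℕ} [hp : Fact p.Prime]

theorem den_ne {q : ℚ} (h : padicNorm p q ≤ 1) : ((q.den : ℕ) : ZMod p) ≠ 0 := by
  rw [Ne, ZMod.natCast_eq_zero_iff]
  exact (norm_le_iff q).1 h

theorem cast_ne {s t : ℚ} (hs : padicNorm p s ≤ 1) (ht : padicNorm p t ≤ 1)
    (h : padicNorm p (s - t) = 1) : (s : ZMod p) ≠ (t : ZMod p) := by
  intro he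
  rw [Rat.cast_def, Rat.cast_def, div_eq_div_iff (den_ne hs) (den_ne ht)] at he
  have h1 : ((s.num * t.den - t.num * s.den : ℤ) : ZMod p) = 0 := by
    push_cast
    rw [he, sub_self]
  rw [ZMod.intCast_zmod_eq_zero_iff_dvd] at h1
  have h2 : ((s.num * t.den - t.num * s.den : ℤ) : ℚ) = (s - t) * (s.den * t.den) := by
    have e1 := Rat.mul_den_eq_num s
    have e2 := Rat.mul_den_eq_num t
    push_cast
    rw [← e1, ← e2]
    ring
  have h3 : padicNorm p ((s.den : ℕ) : ℚ) = 1 :=
    (padicNorm.nat_eq_one_iff _).2 ((norm_le_iff s).1 hs)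
  have h4 : padicNorm p ((t.den : ℕ) : ℚ) = 1 :=
    (padicNorm.nat_eq_one_iff _).2 ((norm_le_iff t).1 ht)
  have h5 : padicNorm p ((s.num * t.den - t.num * s.den : ℤ) : ℚ) = 1 := by
    rw [h2, padicNorm.mul, padicNorm.mul, h, h3, h4]
    norm_num
  exact (padicNorm.int_eq_one_iff _).1 h5 h1

end

/-- the number of the points -/
theorem card_iff {N : ℕ} (n : ℕ) : (∃ Φ ∈ H N, Φ.card = n) ↔
    ∀ p : ℕ, p.Prime → p ≠ 2 → p ≤ n + 1 → p ∣ N := by
  constructor
  · rintro ⟨Φ, ⟨h0, h1, h2⟩, hc⟩ p hp hp2 hpn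
    by_contra hpN
    have : Fact p.Prime := ⟨hp⟩
    have h4 : ¬ p ∣ 2 * N := by
      intro h5
      rcases (hp.dvd_mul).1 h5 with h6 | h6
      · exact hp2 ((Nat.prime_dvd_prime_iff_eq hp Nat.prime_two).1 h6)
      · exact hpN h6
    obtain ⟨k1, k2⟩ := (good_iff h0 h1).1 (h2 p hp h4)
    have hswap : ∀ a b : ℚ, padicNorm p (a - b) = padicNorm p (b - a) := by
      intro a b
      rw [← padicNorm.neg, neg_sub]
    set Θ : Finset ℚ := insert 0 (insert 1 Φ) with hΘ
    have hcard : Θ.card = n + 2 := by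
      rw [hΘ, card_insert_of_notMem, card_insert_of_notMem h1, hc]
      rw [mem_insert]
      push Not
      exact ⟨by norm_num, h0⟩
    have hle : ∀ t ∈ Θ, padicNorm p t ≤ 1 := by
      intro t ht
      rw [hΘ, mem_insert, mem_insert] at ht
      rcases ht with rfl | rfl | ht
      · simp
      · exact padicNorm.one.le
      · exact (k1 t ht).1.le
    have hd : ∀ s ∈ Θ, ∀ t ∈ Θ, s ≠ t → padicNorm p (s - t) = 1 := by
      intro s hs t ht hst
      rw [hΘ, mem_insert, mem_insert] at hs ht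
      rcases hs with rfl | rfl | hs <;> rcases ht with rfl | rfl | ht
      · exact absurd rfl hst
      · rw [zero_sub, padicNorm.neg]
        exact padicNorm.one
      · rw [zero_sub, padicNorm.neg]
        exact (k1 t ht).1
      · rw [sub_zero]
        exact padicNorm.one
      · exact absurd rfl hst
      · rw [hswap]
        exact (k1 t ht).2
      · rw [sub_zero]
        exact (k1 s hs).1
      · exact (k1 s hs).2
      · exact k2 s hs t ht hst
    have hinj : Set.InjOn (fun t : ℚ => (t : ZMod p)) (Θ : Set ℚ) := by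
      intro s hs t ht he
      by_contra hst
      exact cast_ne (hle s hs) (hle t ht) (hd s hs t ht hst) he
    have h5 := card_le_card_of_injOn (t := (univ : Finset (ZMod p))) (fun t : ℚ => (t : ZMod p))
      (fun t _ => mem_univ _) hinj
    rw [hcard, card_univ, ZMod.card] at h5
    omega
  · intro h
    have hinj : Function.Injective (Nat.cast : ℕ → ℚ) := Nat.cast_injective
    refine ⟨(Icc 2 (n + 1)).image (Nat.cast : ℕ → ℚ), ⟨?_, ?_, fun p hp hpN => ?_⟩, ?_⟩
    · rw [mem_image]
      rintro ⟨m, hm, h1⟩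
      rw [mem_Icc] at hm
      have : m = 0 := by exact_mod_cast h1
      omega
    · rw [mem_image]
      rintro ⟨m, hm, h1⟩
      rw [mem_Icc] at hm
      have : m = 1 := by exact_mod_cast h1
      omega
    · have : Fact p.Prime := ⟨hp⟩
      have hpn : n + 2 ≤ p := by
        by_contra hlt
        have hp2 : p ≠ 2 := fun h => hpN (h ▸ Dvd.intro _ rfl)
        exact hpN (Dvd.dvd.mul_left (h p hp hp2 (by omega)) _)
      have hu : ∀ a b : ℕ, a ≤ n + 1 → b ≤ n + 1 → a ≠ b → padicNorm p ((a : ℚ) - b) = 1 := by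
        intro a b ha hb hab
        have e : (a : ℚ) - b = (((a : ℤ) - b : ℤ) : ℚ) := by push_cast; rfl
        rw [e, padicNorm.int_eq_one_iff]
        intro hdvd
        have h1 := Int.eq_zero_of_abs_lt_dvd hdvd (by
          rw [abs_lt]
          constructor <;> omega)
        apply hab
        omega
      rw [good_iff]
      · refine ⟨fun t ht => ?_, fun s hs t ht hst => ?_⟩
        · obtain ⟨m, hm, rfl⟩ := mem_image.1 ht
          rw [mem_Icc] at hm
          constructor
          · have := hu m 0 (by omega) (by omega) (by omega)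
            simpa using this
          · have := hu m 1 (by omega) (by omega) (by omega)
            simpa using this
        · obtain ⟨m, hm, rfl⟩ := mem_image.1 hs
          obtain ⟨m', hm', rfl⟩ := mem_image.1 ht
          rw [mem_Icc] at hm hm'
          exact hu m m' (by omega) (by omega) fun h => hst (by rw [h])
      · rw [mem_image]
        rintro ⟨m, hm, h1⟩
        rw [mem_Icc] at hm
        have : m = 0 := by exact_mod_cast h1
        omega
      · rw [mem_image]
        rintro ⟨m, hm, h1⟩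
        rw [mem_Icc] at hm
        have : m = 1 := by exact_mod_cast h1
        omega
    · rw [card_image_of_injective _ hinj, Nat.card_Icc]
      omega

/-- the density -/
theorem genus_density (n : ℕ) : Tendsto (fun X : ℕ =>
    ({N : ℕ | 1 ≤ N ∧ N ≤ X ∧ ∃ Φ ∈ H N, Φ.card = n}.ncard : ℝ) / X) atTop
    (𝓝 (∏ p ∈ (range (n + 2)).filter (fun p => p.Prime ∧ p ≠ 2), ((p : ℝ))⁻¹)) := by
  classical
  set F := (range (n + 2)).filter (fun p => p.Prime ∧ p ≠ 2) with hF
  set P : ℕ := ∏ p ∈ F, p with hP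
  have hP0 : 0 < P := prod_pos fun p hp => (mem_filter.1 hp).2.1.pos
  have h1 : ∀ N, (∃ Φ ∈ H N, Φ.card = n) ↔ P ∣ N := by
    intro N
    rw [card_iff]
    constructor
    · intro h
      refine Finset.prod_primes_dvd _ (fun p hp => ?_) fun p hp => ?_
      · exact (mem_filter.1 hp).2.1.prime
      · have h2 := mem_filter.1 hp
        have h3 := mem_range.1 h2.1
        exact h p h2.2.1 h2.2.2 (by omega)
    · intro h p hp hp2 hpn
      exact (dvd_prod_of_mem _ (mem_filter.2 ⟨mem_range.2 (by omega), hp, hp2⟩)).trans h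
  have h2 : ∀ X : ℕ, {N : ℕ | 1 ≤ N ∧ N ≤ X ∧ ∃ Φ ∈ H N, Φ.card = n}.ncard = X / P := by
    intro X
    rw [← Nat.Ioc_filter_dvd_card_eq_div, ← Set.ncard_coe_finset]
    congr 1
    ext N
    rw [Finset.mem_coe, mem_filter, mem_Ioc]
    constructor
    · rintro ⟨k1, k2, k3⟩
      exact ⟨⟨by omega, k2⟩, (h1 N).1 k3⟩
    · rintro ⟨⟨k1, k2⟩, k3⟩
      exact ⟨by omega, k2, (h1 N).2 k3⟩
  have h3 : (∏ p ∈ F, ((p : ℝ))⁻¹) = ((P : ℝ))⁻¹ := by
    rw [hP, prod_inv_distrib]
    push_cast
    rfl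
  rw [h3]
  have h4 := (tendsto_nat_floor_mul_div_atTop (R := ℝ) (a := ((P : ℝ))⁻¹) (by positivity)).comp
    tendsto_natCast_atTop_atTop
  refine h4.congr fun X => ?_
  rw [h2]
  show ((⌊((P : ℝ))⁻¹ * (X : ℝ)⌋₊ : ℕ) : ℝ) / (X : ℝ) = _
  rw [mul_comm, ← div_eq_mul_inv, Nat.floor_div_eq_div]

end Pool.Agent.L0h51.HC
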