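import Pool.Agent.L0h51.HC.Crit

/-! The limit law of the set of the curves. -/

set_option autoImplicit false

namespace Pool.Agent.L0h51.HC

open Filter Topology Finset
open Pool.Agent.L0h51.AB (T legA legB mem_T leg_ne leg_J mj_dvd leg_three size one_le_size
  size_nonneg hh ThreePoles)

theorem size_def (t : ℚ) : size t = Real.log (3 + height t) := rfl

/-- the sets which are made of a set of parameters -/
def cl (Θ : Set ℚ) : Set (Finset ℚ) :=
  {Φ | (∀ t ∈ Φ, t ∈ Θ) ∧ ∀ s ∈ Φ, ∀ t ∈ Φ, s ≠ t → s / t ∈ Θ}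

theorem H_eq (N : ℕ) : H N = cl (T legA legB N) := by
  ext Φ
  exact mem_H

open Classical in
/-- the same for finite sets -/
noncomputable def clF (Θ : Finset ℚ) : Finset (Finset ℚ) :=
  Θ.powerset.filter fun Φ => ∀ s ∈ Φ, ∀ t ∈ Φ, s ≠ t → s / t ∈ Θ

theorem clF_coe (Θ : Finset ℚ) : ((clF Θ : Finset (Finset ℚ)) : Set (Finset ℚ)) = cl (Θ : Set ℚ) := by
  ext Φ
  rw [Finset.mem_coe, clF, mem_filter, mem_powerset]
  exact Iff.rfl

theorem finite_H {N : ℕ} (hN : 0 < N) : (H N).Finite := by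
  rw [H_eq]
  obtain ⟨Θ, hΘ⟩ := (leg_three.law.1 N hN).exists_finset_coe
  rw [← hΘ, ← clF_coe]
  exact Finset.finite_toSet _

open Classical in
/-- **the limit law** -/
theorem law : ∃ ν : Finset (Finset ℚ) → ℝ, (∀ W, 0 ≤ ν W) ∧ HasSum ν 1 ∧
    ∀ (k : ℕ) (K : ℝ) (Ψ : Set (Finset ℚ) → ℝ),
      (∀ W : Finset (Finset ℚ), |Ψ W| ≤ K * (1 + ∑ t ∈ W.biUnion id, Real.log (3 + height t)) ^ k) →
      Summable (fun W : Finset (Finset ℚ) => ν W * Ψ W) ∧
      Tendsto (fun X : ℕ => (∑ N ∈ Icc 1 X, Ψ (H N)) / X) atTop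
        (𝓝 (∑' W : Finset (Finset ℚ), ν W * Ψ W)) := by
  obtain ⟨-, μ, hμ0, hμ1, hμ⟩ := leg_three.law
  -- the image of the law
  have hfib : ∀ (f : Finset ℚ → ℝ) (a : ℝ), HasSum (fun Θ => μ Θ * f Θ) a →
      Summable (fun Θ => |μ Θ * f Θ|) →
      HasSum (fun W : Finset (Finset ℚ) => ∑' Θ : {Θ // clF Θ = W}, μ Θ.1 * f Θ.1) a := by
    intro f a ha hs
    have h1 := (Equiv.sigmaFiberEquiv clF).hasSum_iff (f := fun Θ => μ Θ * f Θ) (a := a)
    have h2 : Summable ((fun Θ => μ Θ * f Θ) ∘ (Equiv.sigmaFiberEquiv clF)) :=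
      (h1.2 ha).summable
    exact (h1.2 ha).sigma fun W => (h2.sigma_factor W).hasSum
  have hone : HasSum (fun Θ => μ Θ * 1) 1 := by simpa using hμ1
  have habs : Summable fun Θ => |μ Θ * 1| := by
    refine hμ1.summable.congr fun Θ => ?_
    rw [mul_one, abs_of_nonneg (hμ0 Θ)]
  refine ⟨fun W => ∑' Θ : {Θ // clF Θ = W}, μ Θ.1, fun W => tsum_nonneg fun Θ => hμ0 _, ?_, ?_⟩
  · have := hfib (fun _ => 1) 1 hone habs
    simpa using this
  · intro k K Ψ hΨ
    have hK : 0 ≤ K := by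
      have h1 := (abs_nonneg _).trans (hΨ ∅)
      simpa using h1
    obtain ⟨h1, h2⟩ := hμ k K (fun Θ => Ψ (cl Θ)) (fun Θ => by
      rw [← clF_coe]
      refine (hΨ _).trans (mul_le_mul_of_nonneg_left (pow_le_pow_left₀ ?_ ?_ k) hK)
      · exact add_nonneg zero_le_one (sum_nonneg fun t _ => size_nonneg t)
      · refine add_le_add le_rfl (sum_le_sum_of_subset_of_nonneg ?_ fun t _ _ => size_nonneg t)
        intro t ht
        rw [mem_biUnion] at ht
        obtain ⟨Φ, hΦ, ht⟩ := ht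
        rw [clF, mem_filter, mem_powerset] at hΦ
        exact hΦ.1 ht)
    have h3 : HasSum (fun W : Finset (Finset ℚ) => (∑' Θ : {Θ // clF Θ = W}, μ Θ.1) * Ψ W)
        (∑' Θ : Finset ℚ, μ Θ * Ψ (cl Θ)) := by
      have h4 := hfib (fun Θ => Ψ (cl Θ)) _ h1.hasSum h1.abs
      have e : (fun W : Finset (Finset ℚ) => (∑' Θ : {Θ // clF Θ = W}, μ Θ.1) * Ψ W) =
          fun W => ∑' Θ : {Θ // clF Θ = W}, μ Θ.1 * Ψ (cl (Θ.1 : Set ℚ)) := by
        funext W
        rw [← tsum_mul_right]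
        refine tsum_congr fun Θ => ?_
        rw [← clF_coe, Θ.2]
      rw [e]
      exact h4
    refine ⟨h3.summable, ?_⟩
    rw [h3.tsum_eq]
    refine h2.congr fun X => ?_
    congr 1
    exact sum_congr rfl fun N _ => by rw [H_eq]

/-- the moments of the number of the sets with `n` elements -/
theorem moments (n k : ℕ) : ∃ M : ℝ, Tendsto (fun X : ℕ =>
    (∑ N ∈ Icc 1 X, ({Φ : Finset ℚ | Φ ∈ H N ∧ Φ.card = n}.ncard : ℝ) ^ k) / X) atTop (𝓝 M) := by
  classical
  obtain ⟨ν, -, -, h⟩ := law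
  obtain ⟨-, h1⟩ := h (n * k) 1 (fun W => ({Φ : Finset ℚ | Φ ∈ W ∧ Φ.card = n}.ncard : ℝ) ^ k)
    (fun W => by
      have h2 : {Φ : Finset ℚ | Φ ∈ (W : Set (Finset ℚ)) ∧ Φ.card = n} =
          ((W.filter fun Φ => Φ.card = n : Finset (Finset ℚ)) : Set (Finset ℚ)) := by
        ext Φ
        simp
      have h3 : (W.filter fun Φ => Φ.card = n).card ≤ (W.biUnion id).card ^ n := by
        have h4 : (W.filter fun Φ => Φ.card = n) ⊆ (W.biUnion id).powersetCard n := by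
          intro Φ hΦ
          rw [mem_filter] at hΦ
          rw [mem_powersetCard]
          exact ⟨fun t ht => mem_biUnion.2 ⟨Φ, hΦ.1, ht⟩, hΦ.2⟩
        refine (card_le_card h4).trans ?_
        rw [card_powersetCard]
        exact Nat.choose_le_pow _ _
      have h5 : ((W.biUnion id).card : ℝ) ≤ 1 + ∑ t ∈ W.biUnion id, Real.log (3 + height t) := by
        have h6 : ((W.biUnion id).card : ℝ) = ∑ t ∈ W.biUnion id, (1 : ℝ) := by simp
        have h7 : ∑ t ∈ W.biUnion id, (1 : ℝ) ≤ ∑ t ∈ W.biUnion id, Real.log (3 + height t) :=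
          sum_le_sum fun t _ => one_le_size t
        linarith
      rw [h2, Set.ncard_coe_finset, one_mul, abs_of_nonneg (by positivity), pow_mul]
      refine pow_le_pow_left₀ (by positivity) ?_ k
      calc ((W.filter fun Φ => Φ.card = n).card : ℝ) ≤ ((W.biUnion id).card : ℝ) ^ n := by
            exact_mod_cast h3
        _ ≤ _ := pow_le_pow_left₀ (by positivity) h5 n)
  exact ⟨_, h1⟩

end Pool.Agent.L0h51.HC
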