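import Pool.Agent.L0h51.HC.Law
import Pool.Agent.L0h51.HC.Gen

/-! The effective tail. -/

set_option autoImplicit false

namespace Pool.Agent.L0h51.AB

open Finset Polynomial Filter Topology

variable {A B : ℤ[X]}

theorem ThreePoles.tail_hh (h : ThreePoles A B) : ∃ C : ℝ, 0 < C ∧ ∀ ε : ℝ, 0 < ε → ε ≤ 1 →
    ∀ X : ℕ, prop (fun N => ¬ ∀ t ∈ T A B N, hh t ≤ Real.exp (C * (1 + Real.log (1 / ε)) ^ 6)) X ≤
      ε := by
  classical
  obtain ⟨D, hD⟩ := h.few (1 / 6) (by norm_num)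
  have e : (2 / 3 + 1 / 6 : ℝ) = 5 / 6 := by norm_num
  rw [e] at hD
  have hsum := hD.summable (s := 11 / 12) (by norm_num)
  set Z : ℝ := ∑' t, (mm A B t : ℝ) ^ (-(11 / 12 : ℝ)) with hZ
  have hZ0 : 0 ≤ Z := tsum_nonneg fun t => by positivity
  have hM : (1 : ℝ) ≤ MM A := by exact_mod_cast h.MM_pos
  set a : ℝ := 1 + Real.log (MM A) + 12 * Real.log (1 + Z) with ha
  have hlM := Real.log_nonneg hM
  have hlZ : 0 ≤ Real.log (1 + Z) := Real.log_nonneg (by linarith)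
  have ha0 : 1 ≤ a := by rw [ha]; linarith
  refine ⟨3000 * (a + 12) ^ 6, by positivity, fun ε hε hε1 X => ?_⟩
  set lε : ℝ := Real.log (1 / ε) with hlε
  have hlε0 : 0 ≤ lε := Real.log_nonneg (by rw [le_div_iff₀ hε]; linarith)
  set R : ℝ := ((1 + Z) / ε) ^ 12 with hR
  have hbase : 1 ≤ (1 + Z) / ε := by
    rw [le_div_iff₀ hε]
    linarith
  have hR1 : 1 ≤ R := one_le_pow₀ hbase
  have hR0 : 0 < R := by linarith
  have hlR : Real.log R = 12 * Real.log (1 + Z) + 12 * lε := by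
    rw [hR, Real.log_pow, hlε, Real.log_div (by linarith) hε.ne', one_div, Real.log_inv]
    push_cast
    ring
  have h1 : ∀ N, 0 < N → (¬ ∀ t ∈ T A B N, hh t ≤
      Real.exp (3000 * (a + 12) ^ 6 * (1 + lε) ^ 6)) →
      ∃ i ∈ {t : Idx B | R < mm A B t}, mm A B i ∣ N := by
    intro N hN hlt
    by_contra hcon
    push Not at hcon
    refine hlt fun t ht => ?_
    obtain ⟨ht1, ht2⟩ := mem_T.1 ht
    have h2 : ¬ R < mj (J A B t) := fun h3 => hcon ⟨t, ht1⟩ h3 ht2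
    have h3 := h.hh_le ht1 (not_lt.1 h2)
    rw [hlR, ← add_assoc, ← ha] at h3
    have h4 : (a + 12 * lε) ^ 6 ≤ (a + 12) ^ 6 * (1 + lε) ^ 6 := by
      rw [← mul_pow]
      refine pow_le_pow_left₀ (by positivity) ?_ 6
      nlinarith
    refine h3.trans (Real.exp_le_exp.2 ?_)
    rw [mul_assoc]
    exact mul_le_mul_of_nonneg_left h4 (by norm_num)
  refine (prop_mono h1 X).trans ?_
  have hJ := hD.prop_le (by norm_num) {t : Idx B | R < mm A B t} X
  refine hJ.trans ?_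
  refine (Summable.tsum_le_tsum (g := fun t : {t : Idx B | R < mm A B t} =>
    R ^ (-(1 / 12 : ℝ)) * (mm A B t.1 : ℝ) ^ (-(11 / 12 : ℝ))) (fun t => ?_)
    ((hD.summable_inv (by norm_num)).subtype _) ((hsum.subtype _).mul_left _)).trans ?_
  · have hm : (0 : ℝ) < mm A B t.1 := by exact_mod_cast mj_pos _
    have e1 : ((mm A B t.1 : ℝ))⁻¹ = (mm A B t.1 : ℝ) ^ (-(1 / 12 : ℝ)) *
        (mm A B t.1 : ℝ) ^ (-(11 / 12 : ℝ)) := by
      rw [← Real.rpow_add hm, ← Real.rpow_neg_one]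
      congr 1
      norm_num
    show ((mm A B t.1 : ℝ))⁻¹ ≤ _
    rw [e1]
    refine mul_le_mul_of_nonneg_right ?_ (by positivity)
    rw [Real.rpow_neg hm.le, Real.rpow_neg hR0.le]
    exact inv_anti₀ (by positivity) (Real.rpow_le_rpow hR0.le (le_of_lt t.2) (by norm_num))
  · rw [tsum_mul_left]
    have h2 : ∑' t : {t : Idx B | R < mm A B t}, (mm A B t.1 : ℝ) ^ (-(11 / 12 : ℝ)) ≤ Z :=
      Summable.tsum_subtype_le (fun t => (mm A B t : ℝ) ^ (-(11 / 12 : ℝ))) _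
        (fun t => by positivity) hsum
    have h3 : R ^ (-(1 / 12 : ℝ)) = ε / (1 + Z) := by
      have h4 : (0 : ℝ) ≤ (1 + Z) / ε := by linarith
      rw [hR, ← Real.rpow_natCast, ← Real.rpow_mul h4]
      have h5 : ((12 : ℕ) : ℝ) * -(1 / 12 : ℝ) = -1 := by norm_num
      rw [h5, Real.rpow_neg_one, inv_div]
    rw [h3]
    calc ε / (1 + Z) * ∑' t : {t : Idx B | R < mm A B t}, (mm A B t.1 : ℝ) ^ (-(11 / 12 : ℝ)) ≤
        ε / (1 + Z) * (1 + Z) := mul_le_mul_of_nonneg_left (by linarith) (by positivity)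
      _ = ε := by field_simp

end Pool.Agent.L0h51.AB

namespace Pool.Agent.L0h51.HC

open Filter Topology Finset
open Pool.Agent.L0h51.AB (T legA legB leg_three prop prop_mono ncard_prop)

theorem tail : ∃ C : ℝ, 0 < C ∧ ∀ ε : ℝ, 0 < ε → ε ≤ 1 → ∀ X : ℕ,
    ({N : ℕ | 1 ≤ N ∧ N ≤ X ∧ ¬ ∀ Φ ∈ H N, ∀ t ∈ Φ,
      height t ≤ Real.exp (C * (1 + Real.log (1 / ε)) ^ 6)}.ncard : ℝ) ≤ ε * X := by
  obtain ⟨C, hC, h⟩ := leg_three.tail_hh
  refine ⟨C, hC, fun ε hε hε1 X => ?_⟩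
  rcases Nat.eq_zero_or_pos X with hX | hX
  · subst hX
    have h3 : {N : ℕ | 1 ≤ N ∧ N ≤ 0 ∧ ¬ ∀ Φ ∈ H N, ∀ t ∈ Φ,
        height t ≤ Real.exp (C * (1 + Real.log (1 / ε)) ^ 6)} = ∅ := by
      ext N
      constructor
      · rintro ⟨h3, h4, -⟩
        exact absurd h3 (by omega)
      · intro h3
        exact absurd h3 (Set.notMem_empty _)
    rw [h3, Set.ncard_empty]
    simp
  · have hX0 : (0 : ℝ) < X := by exact_mod_cast hX
    rw [← div_le_iff₀ hX0, ncard_prop]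
    refine (prop_mono (fun N hN h3 => ?_) X).trans (h ε hε hε1 X)
    intro h4
    exact h3 fun Φ hΦ t ht => h4 t ((mem_H.1 hΦ).1 t ht)

end Pool.Agent.L0h51.HC
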